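import Mathlib

namespace Pool.Agent.Results.MP_b125a4_nt.One

open Polynomial

/-- The shifted factorial `(a;b)_k`. -/
noncomputable def qpoch (a b : RatFunc ℚ) (k : ℕ) : RatFunc ℚ :=
  ∏ j ∈ Finset.range k, (1 - a * b ^ j)

/-- The exponent `e_n(k)`. -/
def e (n k : ℕ) : ℤ := ((k : ℤ) * ((n : ℤ) ^ 2 - 2 * n * k - n - 2)) / 4

/-- The sum `S_n(q)` with `q = X`. -/
noncomputable def S (n : ℕ) : RatFunc ℚ :=
  ∑ k ∈ Finset.range ((n - 1) / 2 + 1), (∑ i ∈ Finset.range (4 * k + 1), RatFunc.X ^ i) *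
    (qpoch RatFunc.X (RatFunc.X ^ 2) k / qpoch (RatFunc.X ^ 2) (RatFunc.X ^ 2) k) ^ 3 *
    RatFunc.X ^ e n k

/-- `A ≡ 0 (mod P)`. -/
def Cong0 (A : RatFunc ℚ) (P : ℚ[X]) : Prop :=
  ∃ U V : ℚ[X], IsCoprime V P ∧ P ∣ U ∧
    A = algebraMap ℚ[X] (RatFunc ℚ) U / algebraMap ℚ[X] (RatFunc ℚ) V

theorem result : ¬ ∀ n : ℕ, 1 ≤ n → n % 4 = 1 → Cong0 (S n) (cyclotomic n ℚ ^ 2) := by
  intro h
  obtain ⟨U, V, h1, h2, h3⟩ := h 1 le_rfl rfl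
  have hS : S 1 = 1 := by simp [S, qpoch, e]
  rw [hS] at h3
  have hV : algebraMap ℚ[X] (RatFunc ℚ) V ≠ 0 := by
    intro h0; rw [h0, div_zero] at h3; exact one_ne_zero h3
  rw [eq_div_iff hV, one_mul] at h3
  have hUV : V = U := IsFractionRing.injective ℚ[X] (RatFunc ℚ) h3
  subst hUV
  have hu := h1.symm.isUnit_of_dvd h2
  have := hu.map (evalRingHom (1 : ℚ))
  simp at this

end Pool.Agent.Results.MP_b125a4_nt.One
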